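import Pool.Agent.Helper98.EY.StmtsB

/-! # EVPAIR: pair products of the window values -/

set_option autoImplicit false

namespace Pool.Agent.Helper98.EX

open Finset MeasureTheory ProbabilityTheory Filter
open scoped Topology

theorem evpair_RR_meas {Ω : Type} [MeasurableSpace Ω] {P : Measure Ω} {X : ℕ → Ω → ℝ}
    (h : IIDE P X) (N z x : ℕ) :
    Measurable (fun ω => RR (rE (EE X ω)) (mE N (EE X ω)) z x) := by
  unfold RR
  apply Finset.measurable_prod
  intro b _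
  unfold mE modl lE rE EE
  exact ((measurable_const.sub (h.meas b)).max measurable_const).div (h.meas (b - 1))

theorem evpair_vp_meas {Ω : Type} [MeasurableSpace Ω] {P : Measure Ω} {X : ℕ → Ω → ℝ}
    (h : IIDE P X) (N z x : ℕ) :
    Measurable (fun ω => vp (rE (EE X ω)) (mE N (EE X ω)) z x) := by
  unfold vp
  exact (evpair_RR_meas h N z x).div (h.meas (x + 1 - 1))

theorem evpair_vh_meas {Ω : Type} [MeasurableSpace Ω] {P : Measure Ω} {X : ℕ → Ω → ℝ}
    (h : IIDE P X) (N z x : ℕ) :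
    Measurable (fun ω => vh (rE (EE X ω)) (mE N (EE X ω)) z x) := by
  unfold vh
  exact (evpair_RR_meas h N z x).div (h.meas (z - 1))

/-- union bound -/
theorem evpair_gen {Ω : Type} [MeasurableSpace Ω] (P : Measure Ω)
    (T : ℕ → ℕ → ℕ → ℕ → Ω → ℝ) (Q : ℕ → ℕ → ℕ → ℕ → Prop) (C e : ℝ) (hC : 0 < C)
    (he : 0 < e) (N : ℕ) (hN : 1 ≤ N) (hL : 1 ≤ Real.log N) (hL2 : 8 * C / e ≤ Real.log N)
    (hm : ∀ z y z' y', Measurable (T z y z' y'))
    (hQ : ∀ z y z' y', Q z y z' y' → z ≤ y ∧ z ≤ z' ∧ z ≤ y' ∧ y ≤ y' ∧ z' ≤ y' ∧ y' < N ∧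
      (y' : ℝ) ≤ z + Real.log N ^ 8)
    (hT : ∀ z y z' y', Q z y z' y' →
      ∫⁻ ω, ENNReal.ofReal (T z y z' y' ω) ∂P ≤ ENNReal.ofReal C) :
    P {ω | ∃ z y z' y', Q z y z' y' ∧ N * Real.log N ^ 25 < T z y z' y' ω} ≤
      ENNReal.ofReal e := by
  classical
  set L := Real.log N with hLdef
  set K : ℕ := ⌊L ^ 8⌋₊ with hK
  have hNpos : (0 : ℝ) < N := by exact_mod_cast hN
  have hLpos : 0 < L := by linarith
  have hKle : (K : ℝ) ≤ L ^ 8 := Nat.floor_le (by positivity)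
  set I : Finset (ℕ × ℕ × ℕ × ℕ) := Finset.range N ×ˢ Finset.range (K + 1) ×ˢ
    Finset.range (K + 1) ×ˢ Finset.range (K + 1) with hI
  have hsub : {ω | ∃ z y z' y', Q z y z' y' ∧ N * L ^ 25 < T z y z' y' ω} ⊆
      ⋃ i ∈ I, {ω | Q i.1 (i.1 + i.2.1) (i.1 + i.2.2.1) (i.1 + i.2.2.2) ∧
        N * L ^ 25 < T i.1 (i.1 + i.2.1) (i.1 + i.2.2.1) (i.1 + i.2.2.2) ω} := by
    rintro ω ⟨z, y, z', y', hq, hω⟩
    obtain ⟨h1, h2, h3, h4, h5, h6, h7⟩ := hQ z y z' y' hq
    have h8 : y' - z ≤ K := by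
      apply Nat.le_floor
      rw [Nat.cast_sub h3]
      linarith
    simp only [Set.mem_iUnion, Set.mem_setOf_eq, exists_prop]
    refine ⟨(z, y - z, z' - z, y' - z), ?_, ?_⟩
    · simp only [hI, Finset.mem_product, Finset.mem_range]
      omega
    · have e1 : z + (y - z) = y := by omega
      have e2 : z + (z' - z) = z' := by omega
      have e3 : z + (y' - z) = y' := by omega
      simp only [e1, e2, e3]
      exact ⟨hq, hω⟩
  refine le_trans (measure_mono hsub) (le_trans (measure_biUnion_finset_le _ _) ?_)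
  have hpos : 0 < (N : ℝ) * L ^ 25 := by positivity
  have hone : ∀ i ∈ I, P {ω | Q i.1 (i.1 + i.2.1) (i.1 + i.2.2.1) (i.1 + i.2.2.2) ∧
      N * L ^ 25 < T i.1 (i.1 + i.2.1) (i.1 + i.2.2.1) (i.1 + i.2.2.2) ω} ≤
      ENNReal.ofReal (C / (N * L ^ 25)) := by
    intro i _
    by_cases hq : Q i.1 (i.1 + i.2.1) (i.1 + i.2.2.1) (i.1 + i.2.2.2)
    · have h1 := hT _ _ _ _ hq
      have h2 := meas_ge_le_lintegral_div (μ := P)
        (f := fun ω => ENNReal.ofReal (T i.1 (i.1 + i.2.1) (i.1 + i.2.2.1) (i.1 + i.2.2.2) ω))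
        (hm _ _ _ _).ennreal_ofReal.aemeasurable
        (ε := ENNReal.ofReal (N * L ^ 25)) (by
          rw [Ne, ENNReal.ofReal_eq_zero, not_le]; exact hpos) ENNReal.ofReal_ne_top
      rw [ENNReal.ofReal_div_of_pos hpos]
      refine le_trans (le_trans (measure_mono ?_) h2) (ENNReal.div_le_div_right h1 _)
      rintro ω ⟨-, hω⟩
      exact ENNReal.ofReal_le_ofReal hω.le
    · have : {ω | Q i.1 (i.1 + i.2.1) (i.1 + i.2.2.1) (i.1 + i.2.2.2) ∧
          N * L ^ 25 < T i.1 (i.1 + i.2.1) (i.1 + i.2.2.1) (i.1 + i.2.2.2) ω} = ∅ := by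
        ext ω
        simp [hq]
      rw [this, measure_empty]
      exact bot_le
  refine le_trans (Finset.sum_le_sum hone) ?_
  rw [Finset.sum_const, nsmul_eq_mul, ← ENNReal.ofReal_natCast,
    ← ENNReal.ofReal_mul (by positivity)]
  apply ENNReal.ofReal_le_ofReal
  have hcard : (I.card : ℝ) = N * ((K : ℝ) + 1) ^ 3 := by
    rw [hI]
    simp only [Finset.card_product, Finset.card_range]
    push_cast
    ring
  rw [hcard]
  have hK1 : ((K : ℝ) + 1) ^ 3 ≤ (2 * L ^ 8) ^ 3 := by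
    apply pow_le_pow_left₀ (by positivity)
    have : 1 ≤ L ^ 8 := one_le_pow₀ hL
    linarith
  have hC' : 8 * C ≤ e * L := by
    rw [div_le_iff₀ he] at hL2
    linarith
  calc (N : ℝ) * ((K : ℝ) + 1) ^ 3 * (C / (N * L ^ 25))
      ≤ (N : ℝ) * (2 * L ^ 8) ^ 3 * (C / (N * L ^ 25)) := by
        apply mul_le_mul_of_nonneg_right _ (by positivity)
        apply mul_le_mul_of_nonneg_left hK1 hNpos.le
    _ = 8 * C / L := by
        field_simp
        ring
    _ ≤ e := by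
        rw [div_le_iff₀ hLpos]
        exact hC'

theorem st_EVPAIR (h : ST_MOMM) : ST_EVPAIR := by
  intro Ω _ P X θ hX h0 h1 hM ηp hη
  obtain ⟨C, θ', N0, hC, -, -, hall⟩ := h Ω P X θ hX h0 h1 hM
  have he : 0 < ηp / 3 := by positivity
  have htend : Tendsto (fun N : ℕ => Real.log N) atTop atTop :=
    Real.tendsto_log_atTop.comp tendsto_natCast_atTop_atTop
  obtain ⟨N1, hN1⟩ := Filter.eventually_atTop.1
    (htend.eventually_ge_atTop (max 1 (8 * C / (ηp / 3))))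
  refine ⟨max N0 (max N1 1), ?_⟩
  intro N hN
  have hNN0 : N0 ≤ N := le_trans (le_max_left _ _) hN
  have hNN1 : N1 ≤ N := le_trans (le_trans (le_max_left _ _) (le_max_right _ _)) hN
  have hN1' : 1 ≤ N := le_trans (le_trans (le_max_right _ _) (le_max_right _ _)) hN
  have hlog := hN1 N hNN1
  have hL1 : 1 ≤ Real.log N := le_trans (le_max_left _ _) hlog
  have hL2 : 8 * C / (ηp / 3) ≤ Real.log N := le_trans (le_max_right _ _) hlog
  obtain ⟨-, hpp, hhh, hhp⟩ := hall N hNN0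
  have b1 := evpair_gen P (fun z y z' y' ω => vp (rE (EE X ω)) (mE N (EE X ω)) z y *
      vp (rE (EE X ω)) (mE N (EE X ω)) z' y')
    (fun z y z' y' => z ≤ y ∧ y < z' ∧ z' ≤ y' ∧ y' + 1 < N ∧
      (y' : ℝ) ≤ z + Real.log N ^ 8) C (ηp / 3) hC he N hN1' hL1 hL2
    (fun z y z' y' => (evpair_vp_meas hX N z y).mul (evpair_vp_meas hX N z' y'))
    (by
      rintro z y z' y' ⟨q1, q2, q3, q4, q5⟩
      exact ⟨q1, by omega, by omega, by omega, q3, by omega, q5⟩)
    (by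
      rintro z y z' y' ⟨q1, q2, q3, q4, q5⟩
      exact hpp z y z' y' q1 q2 q3)
  have b2 := evpair_gen P (fun z y z' y' ω => vh (rE (EE X ω)) (mE N (EE X ω)) z y *
      vh (rE (EE X ω)) (mE N (EE X ω)) z' y')
    (fun z y z' y' => 1 ≤ z ∧ z ≤ y ∧ y < z' ∧ z' ≤ y' ∧ y' < N ∧
      (y' : ℝ) ≤ z + Real.log N ^ 8) C (ηp / 3) hC he N hN1' hL1 hL2
    (fun z y z' y' => (evpair_vh_meas hX N z y).mul (evpair_vh_meas hX N z' y'))
    (by
      rintro z y z' y' ⟨q0, q1, q2, q3, q4, q5⟩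
      exact ⟨q1, by omega, by omega, by omega, q3, by omega, q5⟩)
    (by
      rintro z y z' y' ⟨q0, q1, q2, q3, q4, q5⟩
      exact hhh z y z' y' q0 q1 q2 q3)
  have b3 := evpair_gen P (fun a z y b ω => vh (rE (EE X ω)) (mE N (EE X ω)) a z *
      vp (rE (EE X ω)) (mE N (EE X ω)) y b)
    (fun a z y b => 1 ≤ a ∧ a ≤ z ∧ z ≤ y ∧ y ≤ b ∧ b + 1 < N ∧
      (b : ℝ) ≤ a + Real.log N ^ 8) C (ηp / 3) hC he N hN1' hL1 hL2
    (fun a z y b => (evpair_vh_meas hX N a z).mul (evpair_vp_meas hX N y b))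
    (by
      rintro a z y b ⟨q0, q1, q2, q3, q4, q5⟩
      exact ⟨q1, by omega, by omega, by omega, q3, by omega, q5⟩)
    (by
      rintro a z y b ⟨q0, q1, q2, q3, q4, q5⟩
      exact hhp a z y b q0 q1 q2 q3)
  have hsum : ENNReal.ofReal ηp = ENNReal.ofReal (ηp / 3) +
      (ENNReal.ofReal (ηp / 3) + ENNReal.ofReal (ηp / 3)) := by
    rw [← ENNReal.ofReal_add he.le he.le, ← ENNReal.ofReal_add he.le (by positivity)]
    congr 1
    ring
  rw [hsum]
  refine le_trans (measure_mono ?_) (le_trans (measure_union_le _ _)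
    (add_le_add b1 (le_trans (measure_union_le _ _) (add_le_add b2 b3))))
  intro ω hω
  simp only [Set.mem_setOf_eq] at hω
  rw [not_and_or, not_and_or] at hω
  rcases hω with hω | hω | hω
  · left
    push Not at hω
    obtain ⟨z, y, z', y', q1, q2, q3, q4, q5, q6⟩ := hω
    exact ⟨z, y, z', y', ⟨q1, q2, q3, q4, q5⟩, q6⟩
  · right
    left
    push Not at hω
    obtain ⟨z, y, z', y', q0, q1, q2, q3, q4, q5, q6⟩ := hω
    exact ⟨z, y, z', y', ⟨q0, q1, q2, q3, q4, q5⟩, q6⟩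
  · right
    right
    push Not at hω
    obtain ⟨z, y, z', y', q0, q1, q2, q3, q4, q5, q6⟩ := hω
    exact ⟨z, y, z', y', ⟨q0, q1, q2, q3, q4, q5⟩, q6⟩

end Pool.Agent.Helper98.EX
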