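import Pool.Agent.Helper98.EY.StmtsC

set_option autoImplicit false

namespace Pool.Agent.Helper98.EX

open Finset

/-- growth -/
theorem red_growth : ∃ N0 : ℕ, ∀ N : ℕ, N0 ≤ N → 100 ≤ Real.log N ∧ (100 : ℝ) ≤ N ∧
    Real.log N ^ 500 < (N : ℝ) ^ (1 / 4 : ℝ) := by
  have hlog : Filter.Tendsto (fun N : ℕ => Real.log N) Filter.atTop Filter.atTop :=
    Real.tendsto_log_atTop.comp tendsto_natCast_atTop_atTop
  have g1 : ∀ᶠ N : ℕ in Filter.atTop, 100 ≤ Real.log N := hlog.eventually_ge_atTop 100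
  have h1 := (isLittleO_log_rpow_rpow_atTop (s := (1 / 4 : ℝ)) ((500 : ℕ) : ℝ)
    (by norm_num)).comp_tendsto (tendsto_natCast_atTop_atTop (R := ℝ))
  have h2 := h1.bound (show (0 : ℝ) < 1 / 2 by positivity)
  obtain ⟨N0, hN0⟩ := Filter.eventually_atTop.1
    ((g1.and h2).and (Filter.eventually_ge_atTop 100))
  refine ⟨N0, fun N hN => ?_⟩
  obtain ⟨⟨h3, h4⟩, h5⟩ := hN0 N hN
  have h6 : (100 : ℝ) ≤ N := by exact_mod_cast h5
  have h7 : 0 < (N : ℝ) ^ (1 / 4 : ℝ) := by positivity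
  refine ⟨h3, h6, ?_⟩
  simp only [Function.comp_apply, Real.norm_eq_abs, Real.rpow_natCast] at h4
  rw [abs_of_nonneg (by positivity), abs_of_pos h7] at h4
  linarith

theorem red_pow {X : ℝ} (hX : 100 ≤ X) {a b : ℕ} (h : a < b) : 100 * X ^ a ≤ X ^ b := by
  have h1 : X ^ (a + 1) ≤ X ^ b := pow_le_pow_right₀ (by linarith) h
  have h2 : X ^ (a + 1) = X * X ^ a := by rw [pow_succ]; ring
  have h3 : 100 * X ^ a ≤ X * X ^ a := mul_le_mul_of_nonneg_right hX (by positivity)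
  linarith

/-- facts on the threshold -/
theorem red_th {N : ℕ} (h1 : 100 ≤ Real.log N) (h2 : (100 : ℝ) ≤ N)
    (h3 : Real.log N ^ 500 < (N : ℝ) ^ (1 / 4 : ℝ)) :
    0 < th3 N ∧ Real.log N ^ 40 ≤ th3 N ∧ th3 N ≤ N ∧ N * Real.log N ^ 25 < th3 N ^ 2 ∧
    (N : ℝ) ^ (3 / 4 : ℝ) ≤ th3 N ∧ Real.log N ^ 242 * (N : ℝ) ^ (3 / 4 : ℝ) ≤
      Real.log N ^ 9 * th3 N ∧ Real.log N * N / th3 N = Real.log N ^ 221 ∧
    Real.log N ^ 9 * N / th3 N = Real.log N ^ 229 ∧ Real.log N ^ 500 < N := by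
  have hNpos : (0 : ℝ) < N := by linarith
  set X := Real.log N with hX
  have hX0 : 0 < X := by linarith
  have hX1 : 1 ≤ X := by linarith
  have hth : th3 N = N / X ^ 220 := rfl
  have hpos : 0 < th3 N := by
    rw [hth]
    positivity
  have hN4 : (N : ℝ) ^ (1 / 4 : ℝ) ≤ N := by
    have e1 : (N : ℝ) ^ (1 / 4 : ℝ) ≤ (N : ℝ) ^ (1 : ℝ) :=
      Real.rpow_le_rpow_of_exponent_le (by linarith) (by norm_num)
    rwa [Real.rpow_one] at e1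
  have h500 : X ^ 500 < N := by linarith
  have hq : (N : ℝ) ^ (3 / 4 : ℝ) * (N : ℝ) ^ (1 / 4 : ℝ) = N := by
    rw [← Real.rpow_add hNpos]
    norm_num
  have hq0 : 0 < (N : ℝ) ^ (3 / 4 : ℝ) := by positivity
  refine ⟨hpos, ?_, ?_, ?_, ?_, ?_, ?_, ?_, h500⟩
  · rw [hth, le_div_iff₀ (by positivity), ← pow_add]
    have e1 : X ^ (40 + 220) ≤ X ^ 500 := pow_le_pow_right₀ hX1 (by norm_num)
    linarith
  · rw [hth]
    apply div_le_self hNpos.le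
    exact one_le_pow₀ hX1
  · rw [hth, div_pow, lt_div_iff₀ (by positivity)]
    have e1 : (N : ℝ) * X ^ 25 * (X ^ 220) ^ 2 = N * X ^ 465 := by ring
    rw [e1, pow_two]
    apply mul_lt_mul_of_pos_left _ hNpos
    have e2 : X ^ 465 ≤ X ^ 500 := pow_le_pow_right₀ hX1 (by norm_num)
    linarith
  · rw [hth, le_div_iff₀ (by positivity)]
    have e2 : X ^ 220 ≤ X ^ 500 := pow_le_pow_right₀ hX1 (by norm_num)
    have e3 : (N : ℝ) ^ (3 / 4 : ℝ) * X ^ 220 ≤ (N : ℝ) ^ (3 / 4 : ℝ) * (N : ℝ) ^ (1 / 4 : ℝ) :=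
      mul_le_mul_of_nonneg_left (by linarith) hq0.le
    linarith
  · rw [hth, mul_div_assoc', le_div_iff₀ (by positivity)]
    have e2 : X ^ 453 ≤ X ^ 500 := pow_le_pow_right₀ hX1 (by norm_num)
    have e3 : (N : ℝ) ^ (3 / 4 : ℝ) * X ^ 453 ≤ (N : ℝ) ^ (3 / 4 : ℝ) * (N : ℝ) ^ (1 / 4 : ℝ) :=
      mul_le_mul_of_nonneg_left (by linarith) hq0.le
    have e4 : X ^ 242 * (N : ℝ) ^ (3 / 4 : ℝ) * X ^ 220 =
        X ^ 9 * ((N : ℝ) ^ (3 / 4 : ℝ) * X ^ 453) := by ring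
    rw [e4]
    apply mul_le_mul_of_nonneg_left _ (by positivity)
    linarith
  · rw [hth]
    field_simp
  · rw [hth]
    field_simp

/-! ### data of one half -/

theorem red_half (hBRD : ST_BRD) : ∀ C1 : ℝ, 0 ≤ C1 → ∃ N0 : ℕ,
    ∀ (N w A x1 : ℕ) (r l : ℕ → ℝ), N0 ≤ N → GE N r l w C1 →
    (A : ℝ) + 3 * Real.log N ^ 241 ≤ x1 → x1 < N → NoHP N r l A (x1 + 1) (th3 N) →
    (∀ z y : ℕ, A ≤ z → z ≤ y → y < x1 → (y : ℝ) + 1 ≤ A + 3 * Real.log N ^ 241 →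
      vp r l z y ≤ (N : ℝ) ^ (3 / 4 : ℝ) ∧ (A < z → vh r l z y ≤ (N : ℝ) ^ (3 / 4 : ℝ))) →
    (∀ z y : ℕ, A ≤ z → z ≤ y → y < x1 → (x1 : ℝ) ≤ y + 3 * Real.log N ^ 7 →
      vp r l z y ≤ th3 N) →
    ∃ L : BD, L.A = A ∧ L.x0 = x1 ∧ L.w = w ∧ 1 ≤ L.V ∧ A + QQ N + 5 * w ≤ L.g 1 ∧
      (L.V : ℝ) ≤ Real.log N ^ 221 ∧ ((L.adj 0).mis 1 A : ℝ) ≤ Real.log N ^ 229 ∧
      ∀ s, s ≤ ⌈Real.log N ^ 230⌉₊ → (L.adj s).Valid ∧
        (L.adj s).Hyp N r l (ta3 N) ((N : ℝ) ^ (-9 : ℝ)) ((N : ℝ) ^ (-9 : ℝ)) ∧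
        (L.adj s).mis 1 A = (L.adj 0).mis 1 A + s := by
  intro C1 hC1
  obtain ⟨N1, hN1⟩ := hBRD C1 hC1
  obtain ⟨N2, hN2⟩ := red_growth
  refine ⟨max N1 N2, fun N w A x1 r l hN hGE hA hx1 hno hl hi => ?_⟩
  obtain ⟨f1, f2, f3⟩ := hN2 N (le_trans (le_max_right _ _) hN)
  obtain ⟨t1, t2, t3, t4, t5, t6, t7, t8, t9⟩ := red_th f1 f2 f3
  have hNpos : (0 : ℝ) < N := by linarith
  have p1 := red_pow f1 (show 7 < 241 by norm_num)
  have p2 := red_pow f1 (show 8 < 241 by norm_num)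
  have p3 := red_pow f1 (show 230 < 241 by norm_num)
  have p4 := red_pow f1 (show 241 < 242 by norm_num)
  have p5 : 1 ≤ Real.log N ^ 7 := one_le_pow₀ (by linarith)
  have q1 : (QQ N : ℝ) < Real.log N ^ 241 + 1 := Nat.ceil_lt_add_one (by positivity)
  have q2 : ((⌈Real.log N ^ 230⌉₊ : ℕ) : ℝ) < Real.log N ^ 230 + 1 :=
    Nat.ceil_lt_add_one (by positivity)
  have q3 : 8 * (N : ℝ) * Real.log N ^ 12 * th3 N ≤ ta3 N := Nat.le_ceil _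
  obtain ⟨L, b1, b2, b3, b4, b5, b6, b7, b8⟩ := hN1 N (ta3 N) w A x1 (QQ N)
    ⌈Real.log N ^ 230⌉₊ r l (th3 N) ((N : ℝ) ^ (3 / 4 : ℝ)) (le_trans (le_max_left _ _) hN) hGE
    t2 t3 t4 (by positivity) t5
    (by
      refine le_trans ?_ t6
      apply mul_le_mul_of_nonneg_right _ (by positivity)
      linarith)
    (by linarith) hx1 hno
    (by
      intro z y h1 h2 h3
      have e1 : (y : ℝ) < x1 := by linarith
      exact hl z y h1 h2 (by exact_mod_cast e1) (by linarith))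
    hi q3
  refine ⟨L, b1, b2, b3, b4, b5, by rwa [t7] at b6, by rwa [t8] at b7, b8⟩

/-! ### the central window -/

theorem red_cen (hQG : ST_QG) : ∀ C1 : ℝ, ∃ N0 : ℕ,
    ∀ (N w x0 : ℕ) (r l : ℕ → ℝ), N0 ≤ N → GE N r l w C1 →
    Shal r l (Real.log N ^ 7) w x0 → 4 * w ≤ x0 →
    ∀ (a b : ℕ) (S : Finset ℕ) (η : Cfg N), x0 ≤ a + 4 * w → a < x0 → x0 < b → b ≤ x0 + 4 * w →
    b ≤ N → a ∉ S → b ∉ S → (∀ x, a < x → x < b → x ∈ S) → cnt η a b = b - x0 →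
    pr r l (fun _ => S) (ta3 N) (sorted a (x0 - w) (x0 + w) b)ᶜ η ≤ (N : ℝ) ^ (-9 : ℝ) := by
  intro C1
  obtain ⟨N2, hN2⟩ := red_growth
  refine ⟨N2, fun N w x0 r l hN hGE hSh hwx a b S η h1 h2 h3 h4 h5 h6 h7 h8 h9 => ?_⟩
  obtain ⟨f1, f2, f3⟩ := hN2 N hN
  obtain ⟨t1, t2, t3, t4, t5, t6, t7, t8, t9⟩ := red_th f1 f2 f3
  have hNpos : (0 : ℝ) < N := by linarith
  have q3 : 8 * (N : ℝ) * Real.log N ^ 12 * th3 N ≤ ta3 N := Nat.le_ceil _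
  have hth : th3 N = N / Real.log N ^ 220 := rfl
  set Lg := Real.log N with hLg
  have hL0 : 0 < Lg := by linarith
  have hL1 : 1 ≤ Lg := by linarith
  have hw1 : (1 : ℝ) ≤ w := by exact_mod_cast hGE.w1
  have hwl := hGE.wlog
  have hq := hQG N r l S a (x0 - w) x0 (x0 + w) b (ta3 N) (Lg ^ 7) (1 / Lg ^ 7)
    ((N : ℝ) ^ (-100 : ℝ)) η hGE.adm
    (fun x hx1 hx2 => lt_of_lt_of_le (by positivity) (hGE.low x hx1 hx2)) (by omega) (by omega) (by omega) (by omega)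
    (by omega) h5 h6 h7 h8 (by positivity) (by positivity)
    (Real.rpow_le_one_of_one_le_of_nonpos (by linarith) (by norm_num))
    (fun x hx1 hx2 => ⟨by
      rw [div_le_iff₀ (by positivity), mul_comm]
      exact hSh.2 x (by omega) (by omega), hGE.low x (by omega) (by omega)⟩)
    (one_le_pow₀ hL1)
    (fun z x hz1 hz2 hz3 => hSh.1 z x (by omega) hz2 (by omega)) h9
  refine hq.trans ?_
  -- the exponent
  have hba : (b : ℝ) - a ≤ 8 * w := by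
    have e1 : (b : ℝ) ≤ x0 + 4 * w := by exact_mod_cast h4
    have e2 : (x0 : ℝ) ≤ a + 4 * w := by exact_mod_cast h1
    linarith
  have hba0 : (1 : ℝ) ≤ (b : ℝ) - a := by
    have : (a : ℝ) + 1 ≤ b := by exact_mod_cast (show a + 1 ≤ b by omega)
    linarith
  set W := (b : ℝ) - a with hW
  have hWL : W ≤ 8 * Lg ^ 2 := by linarith
  have e1 : Real.log (1 / (N : ℝ) ^ (-100 : ℝ)) = 100 * Lg := by
    rw [one_div, Real.log_inv, Real.log_rpow hNpos]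
    ring
  have e2 : Real.log (2 * Lg ^ 7) ≤ 2 * Lg ^ 7 := Real.log_le_self (by positivity)
  have e3 : W ^ 2 * (100 * Lg) + W * (2 * Lg ^ 7) ≤ Lg ^ 12 - 10 * Lg := by
    have a1 : W ^ 2 ≤ (8 * Lg ^ 2) ^ 2 := pow_le_pow_left₀ (by linarith) hWL 2
    have a2 : W ^ 2 * (100 * Lg) ≤ (8 * Lg ^ 2) ^ 2 * (100 * Lg) := mul_le_mul_of_nonneg_right a1 (by positivity)
    have a3 : W * (2 * Lg ^ 7) ≤ (8 * Lg ^ 2) * (2 * Lg ^ 7) := mul_le_mul_of_nonneg_right hWL (by positivity)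
    have a4 := red_pow f1 (show 9 < 10 by norm_num)
    have a5 := red_pow f1 (show 5 < 9 by norm_num)
    have a6 := red_pow f1 (show 1 < 5 by norm_num)
    have a7 := red_pow f1 (show 10 < 12 by norm_num)
    have a8 : (8 * Lg ^ 2) ^ 2 * (100 * Lg) = 6400 * Lg ^ 5 := by ring
    have a9 : (8 * Lg ^ 2) * (2 * Lg ^ 7) = 16 * Lg ^ 9 := by ring
    rw [pow_one] at a6
    rw [a8] at a2
    rw [a9] at a3
    linarith
  have e4 : Lg ^ 12 ≤ (ta3 N : ℝ) * (1 / Lg ^ 7) / (4 * N * (W ^ 5 * (Lg ^ 7) ^ 2)) := by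
    have a0 : 0 < 4 * N * (W ^ 5 * (Lg ^ 7) ^ 2) := by positivity
    rw [le_div_iff₀ a0, mul_one_div, le_div_iff₀ (by positivity)]
    have a1 : W ^ 5 ≤ (8 * Lg ^ 2) ^ 5 := pow_le_pow_left₀ (by linarith) hWL 5
    have a3 : Lg ^ 12 * (4 * N * (W ^ 5 * (Lg ^ 7) ^ 2)) * Lg ^ 7 ≤
        Lg ^ 12 * (4 * N * ((8 * Lg ^ 2) ^ 5 * (Lg ^ 7) ^ 2)) * Lg ^ 7 := by
      apply mul_le_mul_of_nonneg_right _ (by positivity)
      apply mul_le_mul_of_nonneg_left _ (by positivity)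
      apply mul_le_mul_of_nonneg_left _ (by positivity)
      exact mul_le_mul_of_nonneg_right a1 (by positivity)
    refine a3.trans (le_trans ?_ q3)
    rw [hth]
    have a4 : 8 * (N : ℝ) * Lg ^ 12 * (N / Lg ^ 220) = 8 * N * Lg ^ 12 * N / Lg ^ 220 := by ring
    rw [a4, le_div_iff₀ (by positivity)]
    have a5 : Lg ^ 12 * (4 * N * ((8 * Lg ^ 2) ^ 5 * (Lg ^ 7) ^ 2)) * Lg ^ 7 * Lg ^ 220 =
        (8 * N * Lg ^ 12) * (16384 * Lg ^ 251) := by ring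
    rw [a5]
    apply mul_le_mul_of_nonneg_left _ (by positivity)
    have a6 := red_pow f1 (show 251 < 252 by norm_num)
    have a7 := red_pow f1 (show 252 < 253 by norm_num)
    have a8 := red_pow f1 (show 253 < 500 by norm_num)
    linarith
  have e5 : Real.exp (W ^ 2 * Real.log (1 / (N : ℝ) ^ (-100 : ℝ)) + W * Real.log (2 * Lg ^ 7) -
      (ta3 N : ℝ) * (1 / Lg ^ 7) / (4 * N * (W ^ 5 * (Lg ^ 7) ^ 2))) ≤ (N : ℝ) ^ (-10 : ℝ) := by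
    have hexp : (N : ℝ) ^ (-10 : ℝ) = Real.exp (Lg * (-10)) := Real.rpow_def_of_pos hNpos _
    rw [hexp]
    apply Real.exp_le_exp.2
    rw [e1]
    have a1 : W * Real.log (2 * Lg ^ 7) ≤ W * (2 * Lg ^ 7) := mul_le_mul_of_nonneg_left e2 (by linarith)
    linarith
  -- the tails
  have tail : ∀ (s1 s2 : Finset ℕ), (∀ z ∈ s1, ∀ x ∈ s2, z + w ≤ x ∧ x < N) → s1.card ≤ 4 * w →
      s2.card ≤ 4 * w → ∑ z ∈ s1, ∑ x ∈ s2, RR r l z x ≤ 16 * Lg ^ 4 * (N : ℝ) ^ (-11 : ℝ) := by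
    intro s1 s2 hs c1 c2
    have a1 : ∑ z ∈ s1, ∑ x ∈ s2, RR r l z x ≤ ∑ z ∈ s1, ∑ x ∈ s2, (N : ℝ) ^ (-11 : ℝ) := by
      apply Finset.sum_le_sum
      intro z hz
      apply Finset.sum_le_sum
      intro x hx
      exact hGE.far z x (hs z hz x hx).1 (hs z hz x hx).2
    refine a1.trans ?_
    rw [Finset.sum_const, Finset.sum_const, nsmul_eq_mul, nsmul_eq_mul, ← mul_assoc]
    apply mul_le_mul_of_nonneg_right _ (by positivity)
    have a2 : (s1.card : ℝ) ≤ 4 * Lg ^ 2 := by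
      have : (s1.card : ℝ) ≤ 4 * w := by exact_mod_cast c1
      linarith
    have a3 : (s2.card : ℝ) ≤ 4 * Lg ^ 2 := by
      have : (s2.card : ℝ) ≤ 4 * w := by exact_mod_cast c2
      linarith
    calc (s1.card : ℝ) * (s2.card : ℝ) ≤ (4 * Lg ^ 2) * (4 * Lg ^ 2) :=
          mul_le_mul a2 a3 (by positivity) (by positivity)
      _ = 16 * Lg ^ 4 := by ring
  have e6 : ∑ z ∈ Finset.Ico a (x0 - w), ∑ x ∈ Finset.Ico x0 b, RR r l z x ≤ 16 * Lg ^ 4 * (N : ℝ) ^ (-11 : ℝ) := by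
    apply tail
    · intro z hz x hx
      rw [Finset.mem_Ico] at hz hx
      omega
    · rw [Nat.card_Ico]
      omega
    · rw [Nat.card_Ico]
      omega
  have e7 : ∑ z ∈ Finset.Ico a x0, ∑ x ∈ Finset.Ico (x0 + w) b, RR r l z x ≤ 16 * Lg ^ 4 * (N : ℝ) ^ (-11 : ℝ) := by
    apply tail
    · intro z hz x hx
      rw [Finset.mem_Ico] at hz hx
      omega
    · rw [Nat.card_Ico]
      omega
    · rw [Nat.card_Ico]
      omega
  have e8 : (N : ℝ) ^ (-10 : ℝ) = N * (N : ℝ) ^ (-11 : ℝ) := by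
    nth_rewrite 2 [← Real.rpow_one (N : ℝ)]
    rw [← Real.rpow_add hNpos]
    norm_num
  have e9 : (N : ℝ) ^ (-9 : ℝ) = N * (N : ℝ) ^ (-10 : ℝ) := by
    nth_rewrite 2 [← Real.rpow_one (N : ℝ)]
    rw [← Real.rpow_add hNpos]
    norm_num
  have e10 : Lg ^ 4 * (N : ℝ) ^ (-11 : ℝ) ≤ (N : ℝ) ^ (-10 : ℝ) := by
    rw [e8]
    apply mul_le_mul_of_nonneg_right _ (by positivity)
    have := red_pow f1 (show 4 < 500 by norm_num)
    have : 0 < Lg ^ 4 := by positivity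
    linarith
  have e11 : 33 * (N : ℝ) ^ (-10 : ℝ) ≤ (N : ℝ) ^ (-9 : ℝ) := by
    rw [e9]
    exact mul_le_mul_of_nonneg_right (by linarith) (by positivity)
  linarith

end Pool.Agent.Helper98.EX
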