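import Pool.Agent.Helper35.EY.REDa
import Pool.Agent.Helper35.EY.REDb
import Pool.Agent.Helper85.EX.LOC

set_option autoImplicit false

namespace Pool.Agent.Helper98.EX

open Finset

/-- balancing the two sides -/
theorem red_bal {m m' x x1 s1 : ℕ} (h1 : m + x ≤ m' + x1 + s1) (h2 : m' + x1 ≤ m + x + s1) :
    ∃ s s' : ℕ, s ≤ s1 ∧ s' ≤ s1 ∧ m + s + x = m' + s' + x1 ∧ (s = 0 ∨ s' = 0) := by
  rcases le_total (m + x) (m' + x1) with h | h
  · exact ⟨m' + x1 - (m + x), 0, by omega, by omega, by omega, Or.inr rfl⟩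
  · exact ⟨0, m + x - (m' + x1), by omega, by omega, by omega, Or.inl rfl⟩

theorem st_RED (hSPOT : ST_SPOT) (hBRD : ST_BRD) (hBB : ST_BB) (hIM : ST_IMIR) (hQG : ST_QG)
    (hM : ST_MIR) : ST_RED := by
  intro C1 hC1
  obtain ⟨N1, hN1⟩ := red_half hBRD C1 hC1
  obtain ⟨N2, hN2⟩ := red_growth
  obtain ⟨N3, hN3⟩ := red_cen hQG C1
  obtain ⟨N4, hN4⟩ := hSPOT C1
  refine ⟨max (max N1 N2) (max N3 N4), fun N w A B x n r l hN hGE hBN hno hEL hER hx1 hx2 hn1 hn2 => ?_⟩
  have hNN1 : N1 ≤ N := le_trans (le_trans (le_max_left _ _) (le_max_left _ _)) hN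
  have hNN2 : N2 ≤ N := le_trans (le_trans (le_max_right _ _) (le_max_left _ _)) hN
  have hNN3 : N3 ≤ N := le_trans (le_trans (le_max_left _ _) (le_max_right _ _)) hN
  have hNN4 : N4 ≤ N := le_trans (le_trans (le_max_right _ _) (le_max_right _ _)) hN
  obtain ⟨f1, f2, f3⟩ := hN2 N hNN2
  obtain ⟨t1, t2, t3, t4, t5, t6, t7, t8, t9⟩ := red_th f1 f2 f3
  have hNpos : (0 : ℝ) < N := by linarith
  have hadm := hGE.adm
  have hBN' : (B : ℝ) ≤ N := by exact_mod_cast hBN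
  have hA0 : (0 : ℝ) ≤ A := Nat.cast_nonneg A
  have hn0 : (0 : ℝ) ≤ n := Nat.cast_nonneg n
  have hwl := hGE.wlog
  -- powers
  have p0 : 1 ≤ Real.log N ^ 2 := one_le_pow₀ (by linarith)
  have p1 := red_pow f1 (show 2 < 7 by norm_num)
  have p2 := red_pow f1 (show 7 < 8 by norm_num)
  have p3 := red_pow f1 (show 8 < 229 by norm_num)
  have p4 := red_pow f1 (show 229 < 230 by norm_num)
  have p5 := red_pow f1 (show 230 < 231 by norm_num)
  have p6 := red_pow f1 (show 231 < 232 by norm_num)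
  have p7 := red_pow f1 (show 232 < 241 by norm_num)
  have p8 := red_pow f1 (show 241 < 243 by norm_num)
  have p9 := red_pow f1 (show 243 < 500 by norm_num)
  have p10 := red_pow f1 (show 221 < 500 by norm_num)
  -- the interface
  obtain ⟨x1, s1, s2, s3, s4⟩ := hN4 N w x r l (th3 N) hNN4 hGE t1 t4 (by linarith) (by linarith)
  rw [abs_le] at s1
  obtain ⟨s1a, s1b⟩ := s1
  have hAx1 : A < x1 := by
    have : (A : ℝ) < x1 := by linarith
    exact_mod_cast this
  have hx1B : x1 < B := by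
    have : (x1 : ℝ) < B := by linarith
    exact_mod_cast this
  have hAx : A ≤ x := by
    have : (A : ℝ) ≤ x := by linarith
    exact_mod_cast this
  have hxB : x ≤ B := by
    have : (x : ℝ) ≤ B := by linarith
    exact_mod_cast this
  have hcNB : ((N - B : ℕ) : ℝ) = N - B := by
    rw [Nat.cast_sub hBN]
  have hcNx1 : ((N - x1 : ℕ) : ℝ) = N - x1 := by
    rw [Nat.cast_sub (by omega)]
  -- the left half
  obtain ⟨L, a1, a2, a3, a4, a5, a6, a7, a8⟩ := hN1 N w A x1 r l hNN1 hGE (by linarith) (by omega)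
    (fun a z y b h1 h2 h3 h4 h5 h6 => hno a z y b h1 h2 h3 h4 (by omega) h6)
    (fun z y h1 h2 h3 h4 => hEL z y h1 h2 (by linarith))
    (fun z y h1 h2 h3 h4 => s3 z y h2 h3 h4)
  -- the right half
  obtain ⟨i1, i2, i3, i4, i5, i6, i7, i8⟩ := hIM N r l
  have hno' := i8 A B (th3 N) (by omega) hBN hno
  obtain ⟨L', b1, b2, b3, b4, b5, b6, b7, b8⟩ := hN1 N w (N - B) (N - x1) (mirr N r) (mirr N l)
    hNN1 (i4 w C1 hGE) (by rw [hcNB, hcNx1]; linarith) (by omega)
    (fun a z y b h1 h2 h3 h4 h5 h6 => hno' a z y b h1 h2 h3 h4 (by omega) h6)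
    (by
      intro z y h1 h2 h3 h4
      rw [hcNB] at h4
      have e1 : ((N - 1 - y : ℕ) : ℝ) = N - 1 - y := by
        rw [Nat.cast_sub (by omega), Nat.cast_sub (by omega), Nat.cast_one]
      have e2 := hER (N - 1 - y) (N - 1 - z) (by omega) (by omega) (by rw [e1]; linarith)
      constructor
      · rw [i2 z y h2 (by omega)]
        exact e2.1 (by omega)
      · intro h5
        rw [i3 z y (by omega) h2 (by omega)]
        exact e2.2 (by omega))
    (by
      intro z y h1 h2 h3 h4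
      rw [hcNx1] at h4
      rw [i2 z y h2 (by omega)]
      have e1 : ((N - 1 - y : ℕ) : ℝ) = N - 1 - y := by
        rw [Nat.cast_sub (by omega), Nat.cast_sub (by omega), Nat.cast_one]
      exact s4 (N - 1 - y) (N - 1 - z) (by omega) (by omega) (by omega) (by rw [e1]; linarith))
  -- sizes
  obtain ⟨m, hm⟩ : ∃ m, m = (L.adj 0).mis 1 A := ⟨_, rfl⟩
  obtain ⟨m', hm'⟩ : ∃ m', m' = (L'.adj 0).mis 1 (N - B) := ⟨_, rfl⟩
  rw [← hm] at a7 a8
  rw [← hm'] at b7 b8
  have c1 : Real.log N ^ 230 ≤ ((⌈Real.log N ^ 230⌉₊ : ℕ) : ℝ) := Nat.le_ceil _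
  have c2 : ((⌈Real.log N ^ 8⌉₊ : ℕ) : ℝ) < Real.log N ^ 8 + 1 := Nat.ceil_lt_add_one (by positivity)
  have c3 : Real.log N ^ 8 ≤ ((⌈Real.log N ^ 8⌉₊ : ℕ) : ℝ) := Nat.le_ceil _
  have hm0 : (0 : ℝ) ≤ m := Nat.cast_nonneg m
  have hm0' : (0 : ℝ) ≤ m' := Nat.cast_nonneg m'
  obtain ⟨s, s', k1, k2, k3, k4⟩ := red_bal (m := m) (m' := m') (x := x) (x1 := x1)
    (s1 := ⌈Real.log N ^ 230⌉₊)
    (by
      have : (m : ℝ) + x ≤ m' + x1 + ((⌈Real.log N ^ 230⌉₊ : ℕ) : ℝ) := by linarith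
      exact_mod_cast this)
    (by
      have : (m' : ℝ) + x1 ≤ m + x + ((⌈Real.log N ^ 230⌉₊ : ℕ) : ℝ) := by linarith
      exact_mod_cast this)
  have k3' : (m : ℝ) + s + x = m' + s' + x1 := by exact_mod_cast k3
  have k5 : (m : ℝ) + s ≤ 2 * Real.log N ^ 229 + 30 * Real.log N ^ 7 := by
    rcases k4 with h | h
    · rw [h, Nat.cast_zero]
      have : 0 ≤ Real.log N ^ 229 := by positivity
      linarith
    · rw [h, Nat.cast_zero] at k3'
      have : 0 ≤ Real.log N ^ 229 := by positivity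
      linarith
  have k6 : (m' : ℝ) + s' ≤ 2 * Real.log N ^ 229 + 60 * Real.log N ^ 7 := by linarith
  obtain ⟨d1, d2, d3⟩ := a8 s k1
  obtain ⟨d4, d5, d6⟩ := b8 s' k2
  have d3' : (L.adj s).mis 1 (L.adj s).A = m + s := by
    have : (L.adj s).A = A := a1
    rw [this, d3]
  have d6' : (L'.adj s').mis 1 (L'.adj s').A = m' + s' := by
    have : (L'.adj s').A = N - B := b1
    rw [this, d6]
  have u1 : (L.adj s).A = A := a1
  have u2 : (L.adj s).x0 = x1 := a2
  have u3 : (L'.adj s').A = N - B := b1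
  have u4 : (L'.adj s').x0 = N - x1 := b2
  -- positions
  obtain ⟨nn, hnn⟩ : ∃ nn, nn = n + ⌈Real.log N ^ 8⌉₊ := ⟨_, rfl⟩
  have hnn' : (nn : ℝ) = n + ((⌈Real.log N ^ 8⌉₊ : ℕ) : ℝ) := by
    rw [hnn]
    push_cast
    ring
  have room : m + s + nn + A ≤ x1 := by
    have : (m : ℝ) + s + nn + A ≤ x1 := by
      rw [hnn']
      linarith
    exact_mod_cast this
  have room' : m' + s' + nn + (N - B) ≤ N - x1 := by
    have : (m' : ℝ) + s' + nn + ((N - B : ℕ) : ℝ) ≤ ((N - x1 : ℕ) : ℝ) := by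
      rw [hnn', hcNB, hcNx1]
      linarith
    exact_mod_cast this
  obtain ⟨v, p, hL, hp⟩ := brig2_find d1 (m + s + nn) (by rw [d3']; omega) (by rw [u1, u2]; exact room)
  obtain ⟨v', p', hL', hp'⟩ := brig2_find d4 (m' + s' + nn) (by rw [d6']; omega)
    (by rw [u3, u4]; exact room')
  have l1 := red_leg d1
  have l2 := red_leg d4
  have r1 := brig2_rem d1 hL
  have r2 := brig2_rem d1 l1
  have r3 := brig2_rem d4 hL'
  have r4 := brig2_rem d4 l2
  rw [u1] at l1 r1 r2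
  rw [u3] at l2 r3 r4
  have hnpos : 0 < nn := by
    have : (0 : ℝ) < nn := by
      rw [hnn']
      have : 0 < Real.log N ^ 8 := by positivity
      linarith
    exact_mod_cast this
  have hnp : A + nn ≤ p := by
    have := brig2_p_ge (L := L.adj s) (v := v) (p := p) (n := nn) hL.1 (by rw [d3', hp]; omega)
    rw [u1] at this
    omega
  have hnp' : N - B + nn ≤ p' := by
    have := brig2_p_ge (L := L'.adj s') (v := v') (p := p') (n := nn) hL'.1 (by rw [d6', hp']; omega)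
    rw [u3] at this
    omega
  -- the central window
  have hw4 : 4 * w ≤ x1 := by
    have : ((4 * w : ℕ) : ℝ) ≤ x1 := by
      push_cast
      linarith
    exact_mod_cast this
  have hcen := hN3 N w x1 r l hNN3 hGE s2 hw4
  have he : (0 : ℝ) ≤ (N : ℝ) ^ (-9 : ℝ) := by positivity
  obtain ⟨σ, g1, g2⟩ := hBB N r l A B x1 w nn (ta3 N) ((N : ℝ) ^ (-9 : ℝ)) ((N : ℝ) ^ (-9 : ℝ))
    (L.adj s) (L'.adj s') v p 1 A v' p' 1 (N - B) hadm hAx1.le hx1B.le hBN he he d1 d4 u1 u2 a3 u3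
    u4 b3 hL l1 hL' l2 (by omega) (by omega) d2 d5
    (fun a b S η q1 q2 q3 q4 _ q6 q7 q8 q9 q10 =>
      hcen a b S η q1 q2 q3 q4 (by omega) q7 q8 q9 q10)
  -- the starting configuration
  obtain ⟨ζ, hζ⟩ : ∃ ζ : Cfg N, ζ = red_Z N x1 (L.adj s) (L'.adj s') v p v' p' := ⟨_, rfl⟩
  have hpat : ∀ η : Cfg N, (∀ y, A ≤ y → y < B → occ η y = occ ζ y) →
      η ∈ ((L.adj s).Pat v p : Set (Cfg N)) ∧ mir η ∈ ((L'.adj s').Pat v' p' : Set (Cfg N)) ∧
      cnt η A B = B - x := by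
    intro η hη
    rw [hζ] at hη
    obtain ⟨z1, z2, z3, z4⟩ := red_pat hM d1 d4 hAx1.le hx1B.le hBN u1 u2 u3 u4 hL hL' hη
    refine ⟨z1, z2, ?_⟩
    rw [hp] at z3
    rw [hp'] at z4
    have z5 := brig2_cnt_add η hAx1.le hx1B.le
    omega
  have hcζ : cnt ζ A B = B - x := (hpat ζ (fun y _ _ => rfl)).2.2
  refine ⟨σ, ζ, g1, hcζ, ?_, ?_⟩
  · intro η h1 h2
    exact red_cmp (n := n) (nn := nn) d1 d4 hAx1.le hx1B.le hBN u1 u2 u4 hL hL' hnp hnp' hAx hxB
      (by
        have : (n : ℝ) + x1 ≤ nn + x := by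
          rw [hnn']
          linarith
        exact_mod_cast this)
      (by
        have : (n : ℝ) + x ≤ nn + x1 := by
          rw [hnn']
          linarith
        exact_mod_cast this) hζ hcζ h1 h2
  · intro η hη
    obtain ⟨z1, z2, z3⟩ := hpat η hη
    have t := g2 η z1 z2 (by rw [z3, hp, hp']; omega)
    rw [← hnn]
    have hcons := (st_LOC).2.1 N r l σ (3 * ta3 N * nn) A B η (by omega) hBN
      (fun i => ⟨fun h => by
        have := g1 i h
        rw [Finset.mem_Ioo] at this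
        omega, fun h => by
        have := g1 i h
        rw [Finset.mem_Ioo] at this
        omega⟩)
    have hsub : ({ξ | ¬ (cnt ξ A B = B - x ∧ Srt N A B x ξ)} : Set (Cfg N)) ⊆
        {ξ | ¬ (ξ ∈ ((L.adj s).Pat 1 A : Set (Cfg N)) ∧
          mir ξ ∈ ((L'.adj s').Pat 1 (N - B) : Set (Cfg N)))} ∪ {ξ | cnt ξ A B ≠ cnt η A B} := by
      intro ξ hξ
      by_contra hcon
      rw [Set.mem_union, not_or] at hcon
      obtain ⟨y1, y2⟩ := hcon
      have y3 : ξ ∈ ((L.adj s).Pat 1 A : Set (Cfg N)) ∧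
          mir ξ ∈ ((L'.adj s').Pat 1 (N - B) : Set (Cfg N)) := by
        by_contra hc
        exact y1 hc
      have y4 : cnt ξ A B = cnt η A B := by
        by_contra hc
        exact y2 hc
      apply hξ
      refine ⟨by rw [y4, z3], ?_⟩
      refine red_end hM d1 d4 hAx1.le hBN u1 u2 a4 b4 ?_ ?_ hAx ?_ y3.1 y3.2
      · have : (L.adj s).w = w := a3
        rw [this]
        exact a5
      · have : (L'.adj s').w = w := b3
        rw [this]
        exact b5
      · have e1 : (L.adj s).w = w := a3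
        rw [e1, d3]
        have e2 : ((x - x1 : ℕ) : ℝ) ≤ 30 * Real.log N ^ 7 := by
          rcases le_total x x1 with h | h
          · rw [Nat.sub_eq_zero_of_le h, Nat.cast_zero]
            positivity
          · rw [Nat.cast_sub h]
            linarith
        push_cast
        linarith
    refine (pr_mono hadm σ _ hsub η).trans ((pr_union hadm σ _ _ _ η).trans ?_)
    rw [hcons, add_zero]
    refine t.trans ?_
    -- the error
    have hnN : (nn : ℝ) ≤ N := by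
      have : (nn : ℝ) ≤ x1 := by exact_mod_cast (show nn ≤ x1 by omega)
      have : (x1 : ℝ) ≤ N := by exact_mod_cast (show x1 ≤ N by omega)
      linarith
    have hV1 : ((L.adj s).V : ℝ) ≤ N := by
      have : (L.adj s).V = L.V := rfl
      rw [this]
      have : 0 ≤ Real.log N ^ 221 := by positivity
      linarith
    have hV2 : ((L'.adj s').V : ℝ) ≤ N := by
      have : (L'.adj s').V = L'.V := rfl
      rw [this]
      have : 0 ≤ Real.log N ^ 221 := by positivity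
      linarith
    have e1 : (2 * ((L.adj s).V : ℝ) + 2 * (L'.adj s').V + 2) * (N : ℝ) ^ (-9 : ℝ) +
        ((L.adj s).V + (L'.adj s').V + 1) * (N : ℝ) ^ (-9 : ℝ) ≤ 9 * N * (N : ℝ) ^ (-9 : ℝ) := by
      rw [← add_mul]
      apply mul_le_mul_of_nonneg_right _ he
      linarith
    have e2 : (nn : ℝ) * ((2 * ((L.adj s).V : ℝ) + 2 * (L'.adj s').V + 2) * (N : ℝ) ^ (-9 : ℝ) +
        ((L.adj s).V + (L'.adj s').V + 1) * (N : ℝ) ^ (-9 : ℝ)) ≤
        N * (9 * N * (N : ℝ) ^ (-9 : ℝ)) := by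
      apply mul_le_mul hnN e1 _ hNpos.le
      positivity
    refine e2.trans ?_
    have e3 : (N : ℝ) ^ (-6 : ℝ) = (N : ℝ) ^ 3 * (N : ℝ) ^ (-9 : ℝ) := by
      rw [← Real.rpow_natCast (N : ℝ) 3, ← Real.rpow_add hNpos]
      norm_num
    rw [e3]
    have e4 : (N : ℝ) * (9 * N * (N : ℝ) ^ (-9 : ℝ)) = (9 * N ^ 2) * (N : ℝ) ^ (-9 : ℝ) := by ring
    rw [e4]
    apply mul_le_mul_of_nonneg_right _ he
    have e5 : (9 : ℝ) ≤ N := by linarith
    calc 9 * (N : ℝ) ^ 2 ≤ N * N ^ 2 := mul_le_mul_of_nonneg_right e5 (by positivity)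
      _ = (N : ℝ) ^ 3 := by ring

end Pool.Agent.Helper98.EX
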