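import Pool.Agent.Helper80.EY.BRIG2a
import Pool.Agent.Helper98.EY.StmtsC

set_option autoImplicit false

namespace Pool.Agent.Helper98.EX

open Finset

variable {N : ℕ}

/-! ### the canonical pattern of one half -/

theorem red_canon {L : BD} (hV : L.Valid) {v p : ℕ} (hL : L.Leg v p) {η : Cfg N}
    (h : ∀ x, L.A ≤ x → x < L.x0 → (occ η x = true ↔ brig2_P L v p x)) :
    η ∈ (L.Pat v p : Set (Cfg N)) ∧ cnt η L.A L.x0 = L.mis v p := by
  have hlast := hV.last
  have hAp := brig2_leg_A hV hL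
  obtain ⟨l1, l2, l3, l4⟩ := hL
  -- geometry
  have geA : ∀ u, u ≤ L.V → L.A ≤ L.e u := fun u hu => brig2_A_le hV hu
  have ge1 : ∀ u, v ≤ u → u ≤ L.V → L.e u ≤ L.e L.V := fun u _ h2 => brig2_emono hV u L.V h2 le_rfl
  have ge2 : ∀ u u', 1 ≤ u' → u < u' → u' ≤ L.V → L.e u + 4 * L.w ≤ L.g u' := by
    intro u u' h0 h1 h2
    have h3 := hV.cell1 u' h0 h2
    have h4 := brig2_emono hV u (u' - 1) (by omega) (by omega)
    omega
  have hpx : p ≤ L.x0 := by
    unfold BD.G at l4
    split_ifs at l4 with hv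
    · have := hV.cell2 v l1 hv
      have := ge1 v le_rfl hv
      omega
    · exact l4
  have hf : ∀ x, L.A ≤ x → x < L.x0 → ¬ brig2_P L v p x → occ η x = false := by
    intro x hx0 hx hn
    by_contra hc
    exact hn ((h x hx0 hx).1 (by simpa using hc))
  have f1 : ∀ x, L.A ≤ x → x < p → occ η x = true := by
    intro x hx0 hx
    exact (h x hx0 (by omega)).2 (Or.inl hx)
  -- between p and the landing spot
  have f2 : ∀ x, p ≤ x → x < L.G v → occ η x = false := by
    intro x hx1 hx2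
    have hxx : x < L.x0 := by
      unfold BD.G at hx2
      split_ifs at hx2 with hv
      · have := hV.cell2 v l1 hv
        have := ge1 v le_rfl hv
        omega
      · exact hx2
    apply hf x (by omega) hxx
    rintro (hc | ⟨u, hu1, hu2, hu3, hu4⟩)
    · omega
    · unfold BD.G at hx2
      rw [if_pos (show v ≤ L.V by omega)] at hx2
      rcases Nat.eq_or_lt_of_le hu1 with he | he
      · subst he
        omega
      · have h7 := ge2 v u (by omega) he hu2
        have h8 := hV.cell2 v l1 (by omega)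
        omega
  have f3 : ∀ u, v ≤ u → u ≤ L.V → ∀ x, L.g u ≤ x → x < L.e u → occ η x = true := by
    intro u hu1 hu2 x hx1 hx2
    have h3 := ge1 u hu1 hu2
    have h4 := hV.cell1 u (by omega) hu2
    have h5 := geA (u - 1) (by omega)
    exact (h x (by omega) (by omega)).2 (Or.inr ⟨u, hu1, hu2, hx1, hx2⟩)
  have f4 : ∀ u, v < u → u ≤ L.V → ∀ x, L.e (u - 1) ≤ x → x < L.g u → occ η x = false := by
    intro u hu1 hu2 x hx1 hx2
    have h7 := ge1 u hu1.le hu2
    have h8 := hV.cell2 u (by omega) hu2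
    have hvV : v ≤ L.V := by omega
    have h9 : p ≤ L.e (u - 1) := by
      unfold BD.G at l4
      rw [if_pos hvV] at l4
      have h10 := hV.cell2 v l1 hvV
      have h11 := brig2_emono hV v (u - 1) (by omega) (by omega)
      omega
    apply hf x (by omega) (by omega)
    rintro (hc | ⟨u', hu1', hu2', hu3', hu4'⟩)
    · omega
    · rcases lt_trichotomy u' u with hc | hc | hc
      · have h10 := brig2_emono hV u' (u - 1) (by omega) (by omega)
        omega
      · subst hc
        omega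
      · have h10 := ge2 u u' (by omega) hc hu2'
        omega
  have f5 : ∀ x, p ≤ x → L.e L.V ≤ x → x < L.x0 → occ η x = false := by
    intro x hx0 hx1 hx2
    apply hf x (by omega) hx2
    rintro (hc | ⟨u', hu1', hu2', hu3', hu4'⟩)
    · omega
    · have h10 := ge1 u' hu1' hu2'
      omega
  have hpat : η ∈ (L.Pat v p : Set (Cfg N)) := by
    refine ⟨f1, ?_, ?_, ?_, ?_⟩
    · intro x hx1 hx2
      exact f2 x hx1 (by omega)
    · intro hv
      have h8 := hV.cell2 v l1 hv
      have hG : L.G v = L.g v := by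
        unfold BD.G
        rw [if_pos hv]
      refine ⟨fun x hx1 hx2 => f3 v le_rfl hv x (by omega) hx2, ?_⟩
      rw [← brig2_cnt_add η (show p ≤ L.g v by omega) (show L.g v ≤ L.e v by omega),
        brig2_cnt_zero (fun x hx1 hx2 => f2 x hx1 (by omega)), brig2_cnt_full (f3 v le_rfl hv), zero_add]
    · intro u hu1 hu2
      have h8 := hV.cell2 u (by omega) hu2
      have h9 := hV.cell1 u (by omega) hu2
      refine ⟨fun x hx1 hx2 => f4 u hu1 hu2 x hx1 (by omega),
        fun x hx1 hx2 => f3 u hu1.le hu2 x (by omega) hx2, ?_⟩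
      rw [← brig2_cnt_add η (show L.e (u - 1) ≤ L.g u by omega) (show L.g u ≤ L.e u by omega),
        brig2_cnt_zero (f4 u hu1 hu2), brig2_cnt_full (f3 u hu1.le hu2), zero_add]
    · intro hv x hx1 hx2
      have h8 := hV.cell2 v l1 hv
      have hG : L.G v = L.g v := by
        unfold BD.G
        rw [if_pos hv]
      have h9 := ge1 v le_rfl hv
      exact f5 x (by omega) hx1 (by omega)
  refine ⟨hpat, ?_⟩
  have h1 := brig2_cnt_pat hV ⟨l1, l2, l3, l4⟩ hpat
  have h2 : cnt η (max p (L.e L.V)) L.x0 = 0 := by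
    apply brig2_cnt_zero
    intro x hx1 hx2
    exact f5 x (le_trans (le_max_left _ _) hx1) (le_trans (le_max_right _ _) hx1) hx2
  rw [h2, add_zero] at h1
  exact h1

/-- the start is a legal position -/
theorem red_leg {L : BD} (hV : L.Valid) : L.Leg 1 L.A := by
  refine ⟨le_rfl, by omega, ?_, ?_⟩
  · show L.e 0 ≤ L.A
    rw [hV.e0]
  · unfold BD.G
    split_ifs with h
    · have h4 := hV.cell1 1 le_rfl h
      have h5 : L.e (1 - 1) = L.A := hV.e0
      omega
    · have h4 := hV.last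
      have h5 := brig2_A_le hV (le_refl L.V)
      omega

theorem red_leg_x0 {L : BD} (hV : L.Valid) {v p : ℕ} (hL : L.Leg v p) : p ≤ L.x0 := by
  obtain ⟨l1, l2, l3, l4⟩ := hL
  unfold BD.G at l4
  split_ifs at l4 with hv
  · have := hV.cell2 v l1 hv
    have := brig2_emono hV v L.V hv le_rfl
    have := hV.last
    omega
  · omega

/-! ### the starting configuration -/

/-- canonical configuration with patterns in both halves -/
noncomputable def red_Z (N x0 : ℕ) (L L' : BD) (v p v' p' : ℕ) : Cfg N := by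
  classical exact fun i => if i.val < x0 then decide (brig2_P L v p i.val)
    else !(decide (brig2_P L' v' p' (N - 1 - i.val)))

theorem red_Z_left {x0 : ℕ} (hx : x0 ≤ N) (L L' : BD) (v p v' p' : ℕ) {x : ℕ} (h : x < x0) :
    occ (red_Z N x0 L L' v p v' p') x = true ↔ brig2_P L v p x := by
  classical
  rw [occ_lt (show x < N by omega)]
  unfold red_Z
  simp [h]

theorem red_Z_right {x0 : ℕ} (L L' : BD) (v p v' p' : ℕ) {x : ℕ} (h : x0 ≤ x) (hN : x < N) :
    occ (red_Z N x0 L L' v p v' p') x = false ↔ brig2_P L' v' p' (N - 1 - x) := by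
  classical
  rw [occ_lt hN]
  unfold red_Z
  simp [not_lt.mpr h]

theorem red_cnt_congr {η ξ : Cfg N} {A B : ℕ} (h : ∀ y, A ≤ y → y < B → occ η y = occ ξ y) :
    cnt η A B = cnt ξ A B := by
  unfold cnt
  apply Finset.sum_congr rfl
  intro i hi
  rw [Finset.mem_Ico] at hi
  rw [h i hi.1 hi.2]

/-- number of particles of the mirror image -/
theorem red_cnt_mir (hM : ST_MIR) (η : Cfg N) {A B : ℕ} (hAB : A ≤ B) (hB : B ≤ N) :
    cnt (mir η) (N - B) (N - A) + cnt η A B = B - A := by
  obtain ⟨m1, m2, m3, m4⟩ := hM N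
  have t1 := m3 η (N - B) (by omega)
  have t2 := m3 η (N - A) (by omega)
  have t3 := ht_cnt (mir η) (show N - B ≤ N - A by omega) (show N - A ≤ N by omega)
  have t4 := ht_cnt η hAB hB
  have e1 : N - (N - B) = B := by omega
  have e2 : N - (N - A) = A := by omega
  rw [e1] at t1
  rw [e2] at t2
  omega

/-- a configuration that agrees with the canonical one has the patterns -/
theorem red_pat (hM : ST_MIR) {A B x1 : ℕ} {L L' : BD} {v p v' p' : ℕ} (hV : L.Valid)
    (hV' : L'.Valid) (h1 : A ≤ x1) (h2 : x1 ≤ B) (h3 : B ≤ N) (hA : L.A = A) (hx : L.x0 = x1)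
    (hA' : L'.A = N - B) (hx' : L'.x0 = N - x1) (hL : L.Leg v p) (hL' : L'.Leg v' p') {η : Cfg N}
    (hη : ∀ y, A ≤ y → y < B → occ η y = occ (red_Z N x1 L L' v p v' p') y) :
    η ∈ (L.Pat v p : Set (Cfg N)) ∧ mir η ∈ (L'.Pat v' p' : Set (Cfg N)) ∧
      cnt η A x1 = L.mis v p ∧ cnt η x1 B + L'.mis v' p' = B - x1 := by
  obtain ⟨m1, m2, m3, m4⟩ := hM N
  have z1 : ∀ x, L.A ≤ x → x < L.x0 → (occ η x = true ↔ brig2_P L v p x) := by
    intro x hx0 hxx
    rw [hη x (by omega) (by omega)]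
    exact red_Z_left (by omega) L L' v p v' p' (by omega)
  have z2 : ∀ x, L'.A ≤ x → x < L'.x0 → (occ (mir η) x = true ↔ brig2_P L' v' p' x) := by
    intro x hx0 hxx
    rw [m2 η x (by omega), Bool.not_eq_true', hη (N - 1 - x) (by omega) (by omega),
      red_Z_right L L' v p v' p' (by omega) (by omega)]
    have h1 : N - 1 - (N - 1 - x) = x := by omega
    rw [h1]
  obtain ⟨c1, c2⟩ := red_canon hV hL z1
  obtain ⟨c3, c4⟩ := red_canon hV' hL' z2
  rw [hA, hx] at c2
  rw [hA', hx'] at c4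
  have c5 := red_cnt_mir hM η h2 h3
  refine ⟨c1, c3, c2, ?_⟩
  omega

/-- comparison of the counts -/
theorem red_cmp {A B x x1 n nn : ℕ} {L L' : BD} {v p v' p' : ℕ} (hV : L.Valid)
    (hV' : L'.Valid) (h1 : A ≤ x1) (h2 : x1 ≤ B) (h3 : B ≤ N) (hA : L.A = A) (hx : L.x0 = x1)
    (hx' : L'.x0 = N - x1) (hL : L.Leg v p) (hL' : L'.Leg v' p')
    (hp : A + nn ≤ p) (hp' : N - B + nn ≤ p') (hAx : A ≤ x) (hxB : x ≤ B)
    (hn1 : n + x1 ≤ nn + x) (hn2 : n + x ≤ nn + x1)
    {ζ : Cfg N} (hζ : ζ = red_Z N x1 L L' v p v' p') (hc : cnt ζ A B = B - x) {η : Cfg N}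
    (hη : cnt η A B = B - x) (hηn : cnt η A x ≤ n) :
    ∀ y, A ≤ y → y ≤ B → cnt η A y ≤ cnt ζ A y := by
  intro y hy1 hy2
  have hpx := red_leg_x0 hV hL
  have hpx' := red_leg_x0 hV' hL'
  -- counts of η
  have a1 : cnt η A x1 ≤ nn := by
    rcases le_total x x1 with h | h
    · have e1 := brig2_cnt_add η hAx h
      have e2 := brig2_cnt_le η x x1
      omega
    · have e1 := brig2_cnt_add η h1 h
      omega
  have a2 : B - x1 ≤ cnt η x1 B + nn := by
    have e1 := brig2_cnt_add η hAx hxB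
    rcases le_total x x1 with h | h
    · have e2 := brig2_cnt_add η h h2
      have e3 := brig2_cnt_le η x x1
      omega
    · have e2 := brig2_cnt_add η h hxB
      omega
  rcases le_or_gt y p with hyp | hyp
  · rw [brig2_cnt_full (η := ζ) (a := A) (b := y)]
    · exact brig2_cnt_le η A y
    · intro z hz1 hz2
      rw [hζ]
      exact (red_Z_left (by omega) L L' v p v' p' (by omega)).2 (Or.inl (by omega))
  · rcases le_or_gt y x1 with hyx | hyx
    · have e1 := brig2_cnt_add η hy1 hyx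
      have e2 : cnt ζ A p = p - A := by
        apply brig2_cnt_full
        intro z hz1 hz2
        rw [hζ]
        exact (red_Z_left (by omega) L L' v p v' p' (by omega)).2 (Or.inl (by omega))
      have e3 := brig2_cnt_add ζ (show A ≤ p by omega) hyp.le
      omega
    · have e1 := brig2_cnt_add η hy1 hy2
      have e2 := brig2_cnt_add ζ hy1 hy2
      have e3 : ∀ z, N - p' ≤ z → z < B → occ ζ z = false := by
        intro z hz1 hz2
        rw [hζ, red_Z_right L L' v p v' p' (by omega) (by omega)]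
        exact Or.inl (by omega)
      have e4 := brig2_cnt_add η hyx.le hy2
      have e5 := brig2_cnt_le η x1 y
      rcases le_or_gt (N - p') y with hyy | hyy
      · have e6 : cnt ζ y B = 0 := brig2_cnt_zero (fun z hz1 hz2 => e3 z (by omega) hz2)
        omega
      · have e6 : cnt ζ (N - p') B = 0 := brig2_cnt_zero e3
        have e7 := brig2_cnt_add ζ hyy.le (show N - p' ≤ B by omega)
        have e8 := brig2_cnt_le ζ y (N - p')
        omega

/-- the final patterns give a sorted state -/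
theorem red_end (hM : ST_MIR) {A B x x1 : ℕ} {L L' : BD} (hV : L.Valid) (hV' : L'.Valid)
    (h1 : A ≤ x1) (h3 : B ≤ N) (hA : L.A = A) (hx : L.x0 = x1) (hVV : 1 ≤ L.V) (hVV' : 1 ≤ L'.V)
    (hg : A + QQ N + 5 * L.w ≤ L.g 1) (hg' : N - B + QQ N + 5 * L'.w ≤ L'.g 1) (hAx : A ≤ x)
    (hmis : ((L.mis 1 A + L.w + (x - x1) : ℕ) : ℝ) ≤ Real.log N ^ 231) {ξ : Cfg N}
    (hξ : ξ ∈ (L.Pat 1 A : Set (Cfg N))) (hξ' : mir ξ ∈ (L'.Pat 1 (N - B) : Set (Cfg N))) :
    Srt N A B x ξ := by
  obtain ⟨m1, m2, m3, m4⟩ := hM N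
  have hw := hV.w1
  have hw' := hV'.w1
  have hG : L.G 1 = L.g 1 := by
    unfold BD.G
    rw [if_pos hVV]
  have hG' : L'.G 1 = L'.g 1 := by
    unfold BD.G
    rw [if_pos hVV']
  refine ⟨?_, ?_, ?_⟩
  · intro y hy1 hy2
    exact hξ.2.1 y hy1 (by omega)
  · intro y hy1 hy2
    have e1 := hξ'.2.1 (N - 1 - y) (by omega) (by omega)
    rw [m2 ξ (N - 1 - y) (by omega)] at e1
    have e2 : N - 1 - (N - 1 - y) = y := by omega
    rw [e2] at e1
    simpa using e1
  · refine le_trans ?_ hmis
    have hleg : L.Leg 1 A := by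
      rw [← hA]
      exact red_leg hV
    have e1 := brig2_cnt_pat_le hV hleg hξ
    rw [hA, hx] at e1
    have e2 : cnt ξ A x ≤ L.mis 1 A + L.w + (x - x1) := by
      rcases le_total x x1 with h | h
      · have e3 := brig2_cnt_add ξ hAx h
        omega
      · have e3 := brig2_cnt_add ξ h1 h
        have e4 := brig2_cnt_le ξ x1 x
        omega
    exact_mod_cast e2

end Pool.Agent.Helper98.EX
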